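import Mathlib

set_option autoImplicit false

/-!
Single-item auctions with correlated bidders and the `k`-lookahead mechanism.
-/

namespace Pool.Agent.W993.KLook

open scoped BigOperators

/-- A finitely supported probability distribution on valuation vectors with positive entries. -/
structure Dist (n : ℕ) where
  /-- the support -/
  supp : Finset (Fin n → ℝ)
  /-- the probabilities -/
  prob : (Fin n → ℝ) → ℝ
  prob_pos : ∀ v ∈ supp, 0 < prob v
  prob_sum : ∑ v ∈ supp, prob v = 1
  val_pos : ∀ v ∈ supp, ∀ i, 0 < v i

/-- A direct mechanism for the bidders in `ι`: for every bid vector `b` the allocation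
probabilities `x b i` and the expected payments `p b i`. -/
structure Mechanism (ι : Type) where
  x : (ι → ℝ) → ι → ℝ
  p : (ι → ℝ) → ι → ℝ

/-- Feasible, truthful in expectation and individually rational. Everything is required at every
vector `v` of positive valuations; `b` is a misreport of bidder `i`. -/
structure Mechanism.Valid {ι : Type} [Fintype ι] [DecidableEq ι] (M : Mechanism ι) : Prop where
  nonneg : ∀ v : ι → ℝ, (∀ j, 0 < v j) → ∀ i, 0 ≤ M.x v i
  sum_le : ∀ v : ι → ℝ, (∀ j, 0 < v j) → ∑ i, M.x v i ≤ 1
  truthful : ∀ v : ι → ℝ, (∀ j, 0 < v j) → ∀ i, ∀ b : ℝ, 0 < b →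
    M.x (Function.update v i b) i * v i - M.p (Function.update v i b) i ≤
      M.x v i * v i - M.p v i
  rational : ∀ v : ι → ℝ, (∀ j, 0 < v j) → ∀ i, 0 ≤ M.x v i * v i - M.p v i

variable {n : ℕ}

/-- Expectation of `f` under `D`. -/
noncomputable def Dist.expect (D : Dist n) (f : (Fin n → ℝ) → ℝ) : ℝ :=
  ∑ v ∈ D.supp, D.prob v * f v

/-- Expected revenue of a mechanism for all `n` bidders. -/
noncomputable def Dist.rev (D : Dist n) (M : Mechanism (Fin n)) : ℝ :=
  D.expect fun v => ∑ i, M.p v i

/-- The optimal expected revenue. -/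
noncomputable def Dist.OPT (D : Dist n) : ℝ :=
  sSup {r | ∃ M : Mechanism (Fin n), M.Valid ∧ r = D.rev M}

/-- The `k` highest bidders, ties broken by index. -/
noncomputable def top (k : ℕ) (v : Fin n → ℝ) : Finset (Fin n) :=
  Finset.univ.filter fun i =>
    (Finset.univ.filter fun j => v i < v j ∨ (v j = v i ∧ j < i)).card < k

open Classical in
/-- The support points of `D` at which the bidders outside `K` have the values `w` and every bidder
in `K` has at least the highest of these values. -/
noncomputable def Dist.event (D : Dist n) (K : Finset (Fin n)) (w : {j // j ∉ K} → ℝ) :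
    Finset (Fin n → ℝ) :=
  D.supp.filter fun v => (∀ j : {j // j ∉ K}, v j = w j) ∧ ∀ i ∈ K, ∀ j : {j // j ∉ K}, w j ≤ v i

/-- Expected revenue of a mechanism for the bidders in `K` under `D_K`, the conditional
distribution of `(v i)` for `i` in `K` given the event above. -/
noncomputable def Dist.condRev (D : Dist n) (K : Finset (Fin n)) (w : {j // j ∉ K} → ℝ)
    (M : Mechanism {i // i ∈ K}) : ℝ :=
  (∑ v ∈ D.event K w, D.prob v * ∑ i : {i // i ∈ K}, M.p (fun j => v j) i) /
    ∑ v ∈ D.event K w, D.prob v

/-- `M` is a revenue-maximising truthful individually rational mechanism for `D_K`. -/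
def Dist.Optimal (D : Dist n) (K : Finset (Fin n)) (w : {j // j ∉ K} → ℝ)
    (M : Mechanism {i // i ∈ K}) : Prop :=
  M.Valid ∧ ∀ M' : Mechanism {i // i ∈ K}, M'.Valid → D.condRev K w M' ≤ D.condRev K w M

/-- For every set `K` of bidders and all values `w` of the bidders outside `K`, a mechanism for the
bidders in `K`. -/
abbrev Family (n : ℕ) : Type :=
  (K : Finset (Fin n)) → ({j // j ∉ K} → ℝ) → Mechanism {i // i ∈ K}

/-- The family `M` describes a `k`-lookahead mechanism for `D`: the `k` highest bidders are served
by a revenue-maximising mechanism for `D_K`. -/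
def IsLookahead (k : ℕ) (D : Dist n) (M : Family n) : Prop :=
  ∀ v ∈ D.supp, D.Optimal (top k v) (fun j => v j) (M (top k v) (fun j => v j))

/-- Total payment of the bidders in `K` at the valuation vector `v`. -/
noncomputable def Family.pay (M : Family n) (K : Finset (Fin n)) (v : Fin n → ℝ) : ℝ :=
  ∑ i : {i // i ∈ K}, (M K (fun j => v j)).p (fun j => v j) i

/-- Expected revenue of the `k`-lookahead mechanism described by `M`. -/
noncomputable def lookRev (k : ℕ) (D : Dist n) (M : Family n) : ℝ :=
  D.expect fun v => M.pay (top k v) v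

/-- The approximation ratio of the `k`-lookahead mechanism: the infimum, in the extended reals, of
`lookRev / OPT` over all numbers of bidders, all distributions with `OPT > 0` and all
`k`-lookahead mechanisms for them. -/
noncomputable def rho (k : ℕ) : EReal :=
  sInf {r | ∃ (n : ℕ) (D : Dist n) (M : Family n), IsLookahead k D M ∧ 0 < D.OPT ∧
    r = ((lookRev k D M / D.OPT : ℝ) : EReal)}

end Pool.Agent.W993.KLook
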