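import Pool.Agent.W993.KLook.Upper

set_option autoImplicit false

namespace Pool.Agent.W993.KLook

open scoped BigOperators

variable {q m : ℕ} {c H : ℝ} {b : ℕ}

/-! ### The `k`-lookahead mechanism -/

open Classical in
/-- post the price `P` to bidder `0` -/
noncomputable def post (q : ℕ) (P : ℝ) : Family (q + 2) := fun K _ =>
  { x := fun v i => if i.val = Fin.castSucc 0 ∧ P ≤ v i then 1 else 0
    p := fun v i => if i.val = Fin.castSucc 0 ∧ P ≤ v i then P else 0 }

theorem post_valid (q : ℕ) {P : ℝ} (K : Finset (Fin (q + 2))) (w : {j // j ∉ K} → ℝ) :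
    (post q P K w).Valid where
  nonneg := by
    intro v _ i
    simp only [post]
    split_ifs <;> norm_num
  sum_le := by
    intro v _
    simp only [post]
    rw [Finset.sum_boole]
    have : (Finset.univ.filter fun i : {i // i ∈ K} => i.val = Fin.castSucc 0 ∧ P ≤ v i).card ≤ 1 := by
      rw [Finset.card_le_one]
      intro i hi j hj
      simp only [Finset.mem_filter, Finset.mem_univ, true_and] at hi hj
      exact Subtype.ext (hi.1.trans hj.1.symm)
    exact_mod_cast this
  truthful := by
    intro v _ i b _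
    simp only [post, Function.update_self]
    by_cases h0 : i.val = Fin.castSucc 0
    · by_cases h1 : P ≤ b
      · by_cases h2 : P ≤ v i
        · simp [h0, h1, h2]
        · simp only [h0, h1, h2, and_true, and_false, if_true, if_false]
          push Not at h2
          linarith
      · by_cases h2 : P ≤ v i
        · simp only [h0, h1, h2, and_true, and_false, if_true, if_false]
          linarith
        · simp [h0, h1, h2]
    · simp only [h0, false_and, if_false]
      linarith
  rational := by
    intro v _ i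
    simp only [post]
    by_cases h0 : i.val = Fin.castSucc 0 ∧ P ≤ v i
    · rw [if_pos h0, if_pos h0]
      linarith [h0.2]
    · rw [if_neg h0, if_neg h0]
      linarith

theorem post_pay {y : ℝ} (hy : 2 * c ≤ y) (l : Fin q → Fin (m + 1))
    (w : {j // j ∉ K0 q} → ℝ) :
    ∑ i, (post q (2 * c) (K0 q) w).p (fun j => vec c y l j) i = 2 * c := by
  rw [sum_K0]
  have h1 : (post q (2 * c) (K0 q) w).p (fun j => vec c y l j) (e 0) = 2 * c := by
    simp only [post]
    rw [if_pos]
    refine ⟨rfl, ?_⟩
    have : vec c y l (e (q := q) 0).val = y := vec_zero y l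
    rw [this]; exact hy
  have h2 : ∀ i : Fin q, (post q (2 * c) (K0 q) w).p (fun j => vec c y l j) (e i.succ) = 0 := by
    intro i
    simp only [post]
    rw [if_neg]
    rintro ⟨h, _⟩
    exact absurd (Fin.castSucc_injective _ h) (Fin.succ_ne_zero i)
  rw [h1, Finset.sum_eq_zero fun i _ => h2 i, add_zero]

theorem event_bad (hc : 1 < c) (hH : 2 * c < H) (v : Fin (q + 2) → ℝ)
    (hv : v ∈ (bad q m b hc hH).supp) :
    (bad q m b hc hH).event (K0 q) (fun j => v j) = (bad q m b hc hH).supp := by
  classical
  unfold Dist.event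
  rw [Finset.filter_eq_self]
  intro v' hv'
  rw [mem_bad] at hv hv'
  obtain ⟨a, rfl⟩ := hv
  obtain ⟨a', rfl⟩ := hv'
  obtain ⟨y, l, hy, h1⟩ := pt_form hH a
  obtain ⟨y', l', hy', h1'⟩ := pt_form hH a'
  rw [h1, h1']
  have hj : ∀ j : {j // j ∉ K0 q}, j.val = Fin.last (q + 1) := by
    intro j
    by_contra hne
    exact j.2 (mem_K0.2 hne)
  constructor
  · intro j
    show vec c y' l' j = vec c y l j
    rw [hj j, vec_last, vec_last]
  · intro i hi j
    show vec c y l j ≤ vec c y' l' i
    rw [hj j, vec_last]
    exact (vec_gt_one hy' hc l' i (mem_K0.1 hi)).le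

theorem condRev_bad (hc : 1 < c) (hH : 2 * c < H) (v : Fin (q + 2) → ℝ)
    (hv : v ∈ (bad q m b hc hH).supp) (M : Mechanism {i // i ∈ K0 q}) :
    (bad q m b hc hH).condRev (K0 q) (fun j => v j) M =
      (bad q m b hc hH).expect (fun v => ∑ i, M.p (fun j => v j) i) := by
  unfold Dist.condRev
  rw [event_bad hc hH v hv, Dist.prob_sum, div_one]
  rfl

theorem post_expect (hc : 1 < c) (hH : 2 * c < H) (w : {j // j ∉ K0 q} → ℝ) :
    (bad q m b hc hH).expect
      (fun v => ∑ i, (post q (2 * c) (K0 q) w).p (fun j => v j) i) = 2 * c := by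
  have h1 : ∀ v ∈ (bad q m b hc hH).supp,
      ∑ i, (post q (2 * c) (K0 q) w).p (fun j => v j) i = 2 * c := by
    intro v hv
    rw [mem_bad] at hv
    obtain ⟨a, rfl⟩ := hv
    obtain ⟨y, l, hy, h1⟩ := pt_form hH a
    rw [h1]
    exact post_pay hy l w
  unfold Dist.expect
  rw [Finset.sum_congr rfl (g := fun v => (bad q m b hc hH).prob v * (2 * c))
    (fun v hv => by simp only [h1 v hv]), ← Finset.sum_mul, Dist.prob_sum, one_mul]

theorem optimal_congr {n : ℕ} {D : Dist n} {M : Family n} {v : Fin n → ℝ} {K K' : Finset (Fin n)}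
    (h : K = K') (hQ : D.Optimal K' (fun j => v j) (M K' fun j => v j)) :
    D.Optimal K (fun j => v j) (M K fun j => v j) := by
  subst h
  exact hQ

theorem post_lookahead (hc : 1 < c) (hH : 2 * c < H) :
    IsLookahead (q + 1) (bad q m b hc hH) (post q (2 * c)) := by
  intro v hv
  have htop : top (q + 1) v = K0 q := by
    rw [mem_bad] at hv
    obtain ⟨a, rfl⟩ := hv
    obtain ⟨y, l, hy, h1⟩ := pt_form hH a
    rw [h1]
    exact top_vec hy hc l
  refine optimal_congr htop ⟨post_valid q _ _, ?_⟩
  intro M' hM'
  rw [condRev_bad hc hH v hv, condRev_bad hc hH v hv, post_expect]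
  exact inner_le hM' hc hH

theorem lookRev_bad (hc : 1 < c) (hH : 2 * c < H) :
    lookRev (q + 1) (bad q m b hc hH) (post q (2 * c)) = 2 * c := by
  have h1 : ∀ v ∈ (bad q m b hc hH).supp, (post q (2 * c)).pay (top (q + 1) v) v = 2 * c := by
    intro v hv
    rw [mem_bad] at hv
    obtain ⟨a, rfl⟩ := hv
    obtain ⟨y, l, hy, h1⟩ := pt_form hH a
    rw [h1, top_vec hy hc l]
    exact post_pay hy l _
  unfold lookRev Dist.expect
  rw [Finset.sum_congr rfl (g := fun v => (bad q m b hc hH).prob v * (2 * c))
    (fun v hv => by simp only [h1 v hv]), ← Finset.sum_mul, Dist.prob_sum, one_mul]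

/-! ### A good mechanism for all bidders -/

open Classical in
/-- the price for bidder `0`; it depends on the small bidders only -/
noncomputable def price (q m b : ℕ) (c H : ℝ) (v : Fin (q + 2) → ℝ) : ℝ :=
  if ∃ l ∈ slack q m b, ∀ i : Fin q, v (Fin.castSucc i.succ) = u m c (l i) then H else 2 * c

theorem price_update_zero (v : Fin (q + 2) → ℝ) (r : ℝ) :
    price q m b c H (Function.update v (Fin.castSucc 0) r) = price q m b c H v := by
  unfold price
  have : ∀ i : Fin q, Function.update v (Fin.castSucc 0) r (Fin.castSucc i.succ) =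
      v (Fin.castSucc i.succ) := by
    intro i
    rw [Function.update_of_ne]
    intro h
    exact absurd (Fin.castSucc_injective _ h) (Fin.succ_ne_zero i)
  simp only [this]

theorem price_update_last (v : Fin (q + 2) → ℝ) (r : ℝ) :
    price q m b c H (Function.update v (Fin.last (q + 1)) r) = price q m b c H v := by
  unfold price
  have : ∀ i : Fin q, Function.update v (Fin.last (q + 1)) r (Fin.castSucc i.succ) =
      v (Fin.castSucc i.succ) := by
    intro i
    rw [Function.update_of_ne]
    exact Fin.castSucc_ne_last _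
  simp only [this]

open Classical in
/-- bidder `0` gets the item at the price above, otherwise the outsider gets it at price `1` -/
noncomputable def star (q m b : ℕ) (c H : ℝ) : Mechanism (Fin (q + 2)) where
  x := fun v i =>
    if i = Fin.castSucc 0 then (if price q m b c H v ≤ v (Fin.castSucc 0) then 1 else 0)
    else if i = Fin.last (q + 1) then
      (if v (Fin.castSucc 0) < price q m b c H v ∧ 1 ≤ v (Fin.last (q + 1)) then 1 else 0)
    else 0
  p := fun v i =>
    if i = Fin.castSucc 0 then
      (if price q m b c H v ≤ v (Fin.castSucc 0) then price q m b c H v else 0)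
    else if i = Fin.last (q + 1) then
      (if v (Fin.castSucc 0) < price q m b c H v ∧ 1 ≤ v (Fin.last (q + 1)) then 1 else 0)
    else 0

theorem sum_fin (f : Fin (q + 2) → ℝ) :
    ∑ i, f i = f (Fin.castSucc 0) + ∑ i : Fin q, f (Fin.castSucc i.succ) + f (Fin.last (q + 1)) := by
  rw [Fin.sum_univ_castSucc, Fin.sum_univ_succ]

theorem last_ne_zero' : Fin.last (q + 1) ≠ Fin.castSucc (0 : Fin (q + 1)) :=
  (Fin.castSucc_ne_last 0).symm

theorem mid_ne_zero (i : Fin q) : Fin.castSucc i.succ ≠ Fin.castSucc (0 : Fin (q + 1)) := by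
  intro h
  exact absurd (Fin.castSucc_injective _ h) (Fin.succ_ne_zero i)

theorem star_valid : (star q m b c H).Valid where
  nonneg := by
    intro v _ i
    simp only [star]
    split_ifs <;> norm_num
  sum_le := by
    intro v _
    rw [sum_fin]
    have h1 : ∀ i : Fin q, (star q m b c H).x v (Fin.castSucc i.succ) = 0 := by
      intro i
      simp only [star]
      rw [if_neg (mid_ne_zero i), if_neg (Fin.castSucc_ne_last _)]
    rw [Finset.sum_eq_zero fun i _ => h1 i]
    simp only [star]
    rw [if_neg (last_ne_zero'), if_pos trivial, if_pos trivial]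
    by_cases h : price q m b c H v ≤ v (Fin.castSucc 0)
    · rw [if_pos h, if_neg]
      · norm_num
      · intro h'; linarith [h'.1]
    · rw [if_neg h]
      split_ifs <;> norm_num
  truthful := by
    intro v _ i r _
    simp only [star]
    by_cases h0 : i = Fin.castSucc 0
    · subst h0
      simp only [if_true, price_update_zero, Function.update_self]
      by_cases h1 : price q m b c H v ≤ v (Fin.castSucc 0)
      · rw [if_pos h1, if_pos h1]
        split_ifs
        · exact le_refl _
        · linarith
      · rw [if_neg h1, if_neg h1]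
        push Not at h1
        split_ifs
        · linarith
        · linarith
    · by_cases h1 : i = Fin.last (q + 1)
      · subst h1
        simp only [if_neg h0, if_true, price_update_last, Function.update_self]
        have h2 : Function.update v (Fin.last (q + 1)) r (Fin.castSucc 0) = v (Fin.castSucc 0) :=
          Function.update_of_ne (Fin.castSucc_ne_last 0) _ _
        rw [h2]
        by_cases h3 : v (Fin.castSucc 0) < price q m b c H v
        · by_cases h4 : 1 ≤ v (Fin.last (q + 1))
          · by_cases h5 : 1 ≤ r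
            · simp only [h3, h4, h5, and_true, if_true]
              linarith
            · simp only [h3, h4, h5, and_true, and_false, if_true, if_false]
              linarith
          · by_cases h5 : 1 ≤ r
            · simp only [h3, h4, h5, and_true, and_false, if_true, if_false]
              push Not at h4
              linarith
            · simp only [h4, h5, and_false, if_false]
              linarith
        · simp only [h3, false_and, if_false]
          linarith
      · simp only [h0, h1, if_false]
        linarith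
  rational := by
    intro v _ i
    simp only [star]
    by_cases h0 : i = Fin.castSucc 0
    · subst h0
      simp only [if_true]
      split_ifs
      · linarith
      · linarith
    · by_cases h1 : i = Fin.last (q + 1)
      · subst h1
        simp only [if_neg h0, if_true]
        split_ifs with h2
        · linarith [h2.2]
        · linarith
      · simp only [h0, h1, if_false]
        linarith

theorem star_pay (v : Fin (q + 2) → ℝ) :
    ∑ i, (star q m b c H).p v i =
      (if price q m b c H v ≤ v (Fin.castSucc 0) then price q m b c H v else 0) +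
      (if v (Fin.castSucc 0) < price q m b c H v ∧ 1 ≤ v (Fin.last (q + 1)) then 1 else 0) := by
  rw [sum_fin]
  have h1 : ∀ i : Fin q, (star q m b c H).p v (Fin.castSucc i.succ) = 0 := by
    intro i
    simp only [star]
    rw [if_neg (mid_ne_zero i), if_neg (Fin.castSucc_ne_last _)]
  rw [Finset.sum_eq_zero fun i _ => h1 i]
  simp only [star]
  rw [if_neg (last_ne_zero'), if_pos trivial, if_pos trivial, add_zero]

theorem price_slack {l : Fin q → Fin (m + 1)} (hl : l ∈ slack q m b) (y : ℝ) :
    price q m b c H (vec c y l) = H := by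
  unfold price
  rw [if_pos]
  exact ⟨l, hl, fun i => vec_mid y l i⟩

theorem price_block (hc : 1 < c) {l : Fin q → Fin (m + 1)} (hl : l ∉ slack q m b) (y : ℝ) :
    price q m b c H (vec c y l) = 2 * c := by
  unfold price
  rw [if_neg]
  rintro ⟨l', hl', h⟩
  have : l = l' := by
    funext i
    have := h i
    rw [vec_mid] at this
    exact u_inj hc this
  exact hl (this ▸ hl')

theorem OPT_ge (hc : 1 < c) (hH : 2 * c < H) :
    2 * c + ((slack q m b).card : ℝ) / ((m + 1 : ℕ) : ℝ) ^ q * (1 - 2 * c / H) ≤
      (bad q m b hc hH).OPT := by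
  have hH0 : 0 < H := by linarith
  refine le_trans (le_of_eq ?_) (le_csSup (rev_bdd _) ⟨star q m b c H, star_valid, rfl⟩)
  unfold Dist.rev
  rw [expect_bad]
  have h1 : ∀ l : Fin q → Fin (m + 1), (if l ∈ slack q m b then
      (1 - 2 * c / H) * (∑ i, (star q m b c H).p (vec c (2 * c) l) i) +
        2 * c / H * (∑ i, (star q m b c H).p (vec c H l) i) else
      (∑ i, (star q m b c H).p (vec c (2 * c) l) i)) =
      2 * c + (if l ∈ slack q m b then (1 - 2 * c / H) else 0) := by
    intro l
    by_cases hl : l ∈ slack q m b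
    · rw [if_pos hl, if_pos hl, star_pay, star_pay, price_slack hl, price_slack hl, vec_zero,
        vec_zero, vec_last, vec_last]
      rw [if_neg (not_le.2 hH), if_pos ⟨hH, le_refl _⟩, if_pos (le_refl _),
        if_neg (fun h => lt_irrefl _ h.1)]
      field_simp
      ring
    · rw [if_neg hl, if_neg hl, star_pay, price_block hc hl, vec_zero, vec_last,
        if_pos (le_refl _), if_neg (fun h => lt_irrefl _ h.1)]
  rw [Finset.sum_congr rfl fun l _ => h1 l, Finset.sum_add_distrib, Finset.sum_const,
    Finset.sum_ite_mem, Finset.univ_inter, Finset.sum_const, Finset.card_univ,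
    Fintype.card_fun, Fintype.card_fin, Fintype.card_fin, nsmul_eq_mul, nsmul_eq_mul]
  have hN : ((m + 1 : ℕ) : ℝ) ^ q ≠ 0 := by positivity
  push_cast at hN ⊢
  field_simp

/-- The ratio on the bad distribution. -/
theorem rho_le_bad (hc : 1 < c) (hH : 2 * c < H) (s : ℝ) (hs : 0 < s)
    (h : s ≤ ((slack q m b).card : ℝ) / ((m + 1 : ℕ) : ℝ) ^ q * (1 - 2 * c / H)) :
    rho (q + 1) ≤ ((2 * c / (2 * c + s) : ℝ) : EReal) := by
  have hO := OPT_ge (q := q) (m := m) (b := b) hc hH
  have hO' : 2 * c + s ≤ (bad q m b hc hH).OPT := by linarith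
  have hO0 : 0 < 2 * c + s := by linarith
  have h1 : rho (q + 1) ≤
      ((lookRev (q + 1) (bad q m b hc hH) (post q (2 * c)) / (bad q m b hc hH).OPT : ℝ) : EReal) :=
    sInf_le ⟨q + 2, bad q m b hc hH, post q (2 * c), post_lookahead hc hH, by linarith, rfl⟩
  refine le_trans h1 ?_
  rw [EReal.coe_le_coe_iff, lookRev_bad]
  exact div_le_div_of_nonneg_left (by linarith) hO0 hO'

theorem rho_le (q : ℕ) : rho (q + 1) ≤ ((4 / 5 : ℝ) : EReal) := by
  refine le_of_forall_gt fun r hr => ?_
  obtain ⟨x, hx1, hx2⟩ := EReal.lt_iff_exists_real_btwn.1 hr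
  rw [EReal.coe_lt_coe_iff] at hx1
  refine lt_of_le_of_lt ?_ hx2
  -- choose the parameters
  obtain ⟨η, hη0, hη1, hη2⟩ : ∃ η : ℝ, 0 < η ∧ η < 1 / 4 ∧ 4 / 5 + η ≤ x := by
    refine ⟨min (1 / 8) (x - 4 / 5), ?_, ?_, ?_⟩
    · exact lt_min (by norm_num) (by linarith)
    · exact lt_of_le_of_lt (min_le_left _ _) (by norm_num)
    · linarith [min_le_right (1 / 8 : ℝ) (x - 4 / 5)]
  set c : ℝ := 1 + η with hcdef
  have hc : 1 < c := by linarith
  have hc0 : 0 < 2 * c := by linarith
  set H : ℝ := 2 * c / η with hHdef
  have hH : 2 * c < H := by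
    rw [hHdef, lt_div_iff₀ hη0]
    nlinarith
  have hθ : 2 * c / H = η := by
    rw [hHdef]
    field_simp
  obtain ⟨m, hm⟩ := exists_nat_gt ((q : ℝ) / η)
  have hm0 : (0 : ℝ) < ((m + 1 : ℕ) : ℝ) := by positivity
  have hbern : 1 - η ≤ ((m : ℝ) / ((m + 1 : ℕ) : ℝ)) ^ q := by
    have h1 : (m : ℝ) / ((m + 1 : ℕ) : ℝ) = 1 + (-(1 / ((m + 1 : ℕ) : ℝ))) := by
      push_cast
      field_simp
      ring
    have h2 : (-2 : ℝ) ≤ -(1 / ((m + 1 : ℕ) : ℝ)) := by
      have : 1 / ((m + 1 : ℕ) : ℝ) ≤ 1 := by
        rw [div_le_one hm0]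
        push_cast
        linarith [Nat.cast_nonneg (α := ℝ) m]
      linarith
    have h3 := one_add_mul_le_pow h2 q
    rw [h1]
    refine le_trans ?_ h3
    have h4 : (q : ℝ) * (1 / ((m + 1 : ℕ) : ℝ)) ≤ η := by
      rw [mul_one_div, div_le_iff₀ hm0]
      rw [div_lt_iff₀ hη0] at hm
      push_cast
      nlinarith
    linarith
  -- choose the parity
  obtain ⟨b, hb⟩ : ∃ b, (m : ℝ) ^ q ≤ 2 * ((slack q m b).card : ℝ) := by
    have h1 := card_slack q m
    by_cases h2 : m ^ q ≤ 2 * (slack q m 0).card
    · exact ⟨0, by exact_mod_cast h2⟩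
    · refine ⟨1, ?_⟩
      have : m ^ q ≤ 2 * (slack q m 1).card := by omega
      exact_mod_cast this
  have hP : (1 - η) / 2 ≤ ((slack q m b).card : ℝ) / ((m + 1 : ℕ) : ℝ) ^ q := by
    rw [le_div_iff₀ (by positivity)]
    rw [div_pow, le_div_iff₀ (by positivity)] at hbern
    linarith
  have hs : 1 / 2 - η ≤ ((slack q m b).card : ℝ) / ((m + 1 : ℕ) : ℝ) ^ q * (1 - 2 * c / H) := by
    rw [hθ]
    have h1 : (1 - η) / 2 * (1 - η) ≤
        ((slack q m b).card : ℝ) / ((m + 1 : ℕ) : ℝ) ^ q * (1 - η) :=
      mul_le_mul_of_nonneg_right hP (by linarith)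
    nlinarith
  refine le_trans (rho_le_bad hc hH (1 / 2 - η) (by linarith) hs) ?_
  rw [EReal.coe_le_coe_iff]
  refine le_trans ?_ hη2
  rw [div_le_iff₀ (by linarith)]
  rw [hcdef]
  nlinarith

end Pool.Agent.W993.KLook
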