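import Pool.Agent.W993.KLook.Defs

set_option autoImplicit false

namespace Pool.Agent.W993.KLook

open scoped BigOperators

/-- A distribution given by finitely many weighted points. -/
noncomputable def Dist.ofPoints {n : ℕ} {α : Type} [Fintype α] (V : α → (Fin n → ℝ)) (wt : α → ℝ)
    (hpos : ∀ a, 0 < wt a) (hsum : ∑ a, wt a = 1) (hV : ∀ a i, 0 < V a i) : Dist n := by
  classical
  exact
  { supp := Finset.univ.image V
    prob := fun v => ∑ a, if V a = v then wt a else 0
    prob_pos := by
      intro v hv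
      obtain ⟨a, _, rfl⟩ := Finset.mem_image.mp hv
      refine lt_of_lt_of_le (hpos a) ?_
      refine le_trans ?_ (Finset.single_le_sum (f := fun a' => if V a' = V a then wt a' else 0)
        (fun a' _ => ?_) (Finset.mem_univ a))
      · simp
      · show 0 ≤ if V a' = V a then wt a' else 0
        split_ifs
        · exact (hpos a').le
        · exact le_refl _
    prob_sum := by
      rw [Finset.sum_comm, ← hsum]
      refine Finset.sum_congr rfl fun a _ => ?_
      rw [Finset.sum_ite_eq]
      simp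
    val_pos := by
      intro v hv
      obtain ⟨a, _, rfl⟩ := Finset.mem_image.mp hv
      exact hV a }

theorem Dist.mem_ofPoints {n : ℕ} {α : Type} [Fintype α] (V : α → (Fin n → ℝ)) (wt : α → ℝ)
    (hpos : ∀ a, 0 < wt a) (hsum : ∑ a, wt a = 1) (hV : ∀ a i, 0 < V a i) (v : Fin n → ℝ) :
    v ∈ (Dist.ofPoints V wt hpos hsum hV).supp ↔ ∃ a, V a = v := by
  classical
  simp [Dist.ofPoints]

theorem Dist.expect_ofPoints {n : ℕ} {α : Type} [Fintype α] (V : α → (Fin n → ℝ)) (wt : α → ℝ)
    (hpos : ∀ a, 0 < wt a) (hsum : ∑ a, wt a = 1) (hV : ∀ a i, 0 < V a i)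
    (f : (Fin n → ℝ) → ℝ) :
    (Dist.ofPoints V wt hpos hsum hV).expect f = ∑ a, wt a * f (V a) := by
  classical
  unfold Dist.expect Dist.ofPoints
  simp only
  simp_rw [Finset.sum_mul]
  rw [Finset.sum_comm]
  refine Finset.sum_congr rfl fun a _ => ?_
  have : ∀ v : Fin n → ℝ, (if V a = v then wt a else 0) * f v = if V a = v then wt a * f v else 0 := by
    intro v
    split_ifs <;> simp
  simp_rw [this]
  rw [Finset.sum_ite_eq]
  simp

section general

variable {ι : Type} [Fintype ι] [DecidableEq ι]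

theorem Mechanism.Valid.mono {M : Mechanism ι} (hM : M.Valid) (v : ι → ℝ) (hv : ∀ j, 0 < v j)
    (i : ι) (b : ℝ) (hb : v i < b) : M.x v i ≤ M.x (Function.update v i b) i := by
  have hb0 : 0 < b := lt_trans (hv i) hb
  have h1 := hM.truthful v hv i b hb0
  have hv' : ∀ j, 0 < Function.update v i b j := by
    intro j
    by_cases hj : j = i
    · subst hj; simpa using hb0
    · rw [Function.update_of_ne hj]; exact hv j
  have h2 := hM.truthful (Function.update v i b) hv' i (v i) (hv i)
  rw [Function.update_idem, Function.update_eq_self, Function.update_self] at h2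
  nlinarith

theorem Mechanism.Valid.p_le {M : Mechanism ι} (hM : M.Valid) (v : ι → ℝ) (hv : ∀ j, 0 < v j)
    (i : ι) : M.p v i ≤ M.x v i * v i := by
  have := hM.rational v hv i
  linarith

theorem Mechanism.Valid.x_le_one {M : Mechanism ι} (hM : M.Valid) (v : ι → ℝ)
    (hv : ∀ j, 0 < v j) (i : ι) : M.x v i ≤ 1 :=
  le_trans (Finset.single_le_sum (f := fun j => M.x v j) (fun j _ => hM.nonneg v hv j)
    (Finset.mem_univ i)) (hM.sum_le v hv)

end general

theorem rev_bdd {n : ℕ} (D : Dist n) :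
    BddAbove {r | ∃ M : Mechanism (Fin n), M.Valid ∧ r = D.rev M} := by
  refine ⟨D.expect fun v => ∑ i, v i, ?_⟩
  rintro r ⟨M, hM, rfl⟩
  unfold Dist.rev Dist.expect
  refine Finset.sum_le_sum fun v hv => ?_
  refine mul_le_mul_of_nonneg_left ?_ (D.prob_pos v hv).le
  refine Finset.sum_le_sum fun i _ => ?_
  refine le_trans (hM.p_le v (D.val_pos v hv) i) ?_
  have h1 := hM.x_le_one v (D.val_pos v hv) i
  have h2 := D.val_pos v hv i
  nlinarith

section example_

variable (q m : ℕ) (c H : ℝ) (b : ℕ)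

/-- values of the small bidders -/
noncomputable def u (m : ℕ) (c : ℝ) (t : Fin (m + 1)) : ℝ := 1 + (c - 1) * ((t.val + 1 : ℕ) : ℝ) / ((m + 1 : ℕ) : ℝ)

theorem u_gt {m : ℕ} {c : ℝ} (hc : 1 < c) (t : Fin (m + 1)) : 1 < u m c t := by
  unfold u
  have : 0 < (c - 1) * ((t.val + 1 : ℕ) : ℝ) / ((m + 1 : ℕ) : ℝ) := by
    have : 0 < c - 1 := by linarith
    positivity
  linarith

theorem u_le {m : ℕ} {c : ℝ} (hc : 1 < c) (t : Fin (m + 1)) : u m c t ≤ c := by
  unfold u
  have h1 : (0 : ℝ) < ((m + 1 : ℕ) : ℝ) := by positivity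
  have h2 : (c - 1) * ((t.val + 1 : ℕ) : ℝ) / ((m + 1 : ℕ) : ℝ) ≤ c - 1 := by
    rw [div_le_iff₀ h1]
    refine mul_le_mul_of_nonneg_left ?_ (by linarith)
    exact_mod_cast t.isLt
  linarith

theorem u_lt {m : ℕ} {c : ℝ} (hc : 1 < c) {s t : Fin (m + 1)} (h : s < t) : u m c s < u m c t := by
  unfold u
  have h1 : (0 : ℝ) < ((m + 1 : ℕ) : ℝ) := by positivity
  have h2 : ((s.val + 1 : ℕ) : ℝ) < ((t.val + 1 : ℕ) : ℝ) := by exact_mod_cast Nat.succ_lt_succ h
  have h3 : (c - 1) * ((s.val + 1 : ℕ) : ℝ) / ((m + 1 : ℕ) : ℝ) <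
      (c - 1) * ((t.val + 1 : ℕ) : ℝ) / ((m + 1 : ℕ) : ℝ) := by
    refine div_lt_div_of_pos_right ?_ h1
    exact mul_lt_mul_of_pos_left h2 (by linarith)
  linarith

theorem u_inj {m : ℕ} {c : ℝ} (hc : 1 < c) {s t : Fin (m + 1)} (h : u m c s = u m c t) : s = t := by
  rcases lt_trichotomy s t with h1 | h1 | h1
  · exact absurd h (u_lt hc h1).ne
  · exact h1
  · exact absurd h (u_lt hc h1).ne'

/-- the valuation vector: big bidder `y`, small bidders at the levels `l`, outsider `1` -/
noncomputable def vec {q m : ℕ} (c : ℝ) (y : ℝ) (l : Fin q → Fin (m + 1)) : Fin (q + 2) → ℝ :=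
  Fin.snoc (α := fun _ => ℝ) (Fin.cons (α := fun _ => ℝ) y fun i => u m c (l i)) 1

variable {q m} {c H b}

theorem vec_zero (y : ℝ) (l : Fin q → Fin (m + 1)) : vec c y l (Fin.castSucc 0) = y := by
  unfold vec
  rw [Fin.snoc_castSucc, Fin.cons_zero]

theorem vec_mid (y : ℝ) (l : Fin q → Fin (m + 1)) (i : Fin q) :
    vec c y l (Fin.castSucc i.succ) = u m c (l i) := by
  unfold vec
  rw [Fin.snoc_castSucc, Fin.cons_succ]

theorem vec_last (y : ℝ) (l : Fin q → Fin (m + 1)) : vec c y l (Fin.last (q + 1)) = 1 := by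
  unfold vec
  rw [Fin.snoc_last]

theorem vec_pos {y : ℝ} (hy : 0 < y) (hc : 1 < c) (l : Fin q → Fin (m + 1)) (i : Fin (q + 2)) :
    0 < vec c y l i := by
  refine Fin.lastCases ?_ (fun i => ?_) i
  · rw [vec_last]; norm_num
  · refine Fin.cases ?_ (fun i => ?_) i
    · rw [vec_zero]; exact hy
    · rw [vec_mid]; linarith [u_gt hc (l i)]

/-- the level vectors at which the outsider should be served -/
def slack (q m b : ℕ) : Finset (Fin q → Fin (m + 1)) :=
  Finset.univ.filter fun l => (∀ i, (l i).val < m) ∧ (∑ i, (l i).val) % 2 = b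

/-- raise level `i` by one -/
def up (l : Fin q → Fin (m + 1)) (i : Fin q) : Fin q → Fin (m + 1) :=
  Function.update l i (if h : (l i).val < m then ⟨(l i).val + 1, by omega⟩ else l i)

theorem up_sum (l : Fin q → Fin (m + 1)) (i : Fin q) (h : (l i).val < m) :
    ∑ j, (up l i j).val = (∑ j, (l j).val) + 1 := by
  rw [← Finset.add_sum_erase Finset.univ _ (Finset.mem_univ i),
    ← Finset.add_sum_erase (a := i) Finset.univ (fun j => (l j).val) (Finset.mem_univ i)]
  have h1 : (up l i i).val = (l i).val + 1 := by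
    unfold up
    rw [Function.update_self, dif_pos h]
  have h2 : ∑ j ∈ Finset.univ.erase i, (up l i j).val = ∑ j ∈ Finset.univ.erase i, (l j).val := by
    refine Finset.sum_congr rfl fun j hj => ?_
    unfold up
    rw [Function.update_of_ne (Finset.ne_of_mem_erase hj)]
  rw [h1, h2]
  ring

theorem up_not_slack {l : Fin q → Fin (m + 1)} (hl : l ∈ slack q m b) (i : Fin q) :
    up l i ∉ slack q m b := by
  intro h
  simp only [slack, Finset.mem_filter, Finset.mem_univ, true_and] at hl h
  have := up_sum l i (hl.1 i)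
  omega

theorem up_inj {l l' : Fin q → Fin (m + 1)} (hl : l ∈ slack q m b) (hl' : l' ∈ slack q m b)
    (i : Fin q) (h : up l i = up l' i) : l = l' := by
  simp only [slack, Finset.mem_filter, Finset.mem_univ, true_and] at hl hl'
  funext j
  have hj := congrFun h j
  unfold up at hj
  by_cases hji : j = i
  · subst hji
    rw [Function.update_self, Function.update_self, dif_pos (hl.1 j), dif_pos (hl'.1 j)] at hj
    have := congrArg Fin.val hj
    simp only at this
    exact Fin.ext (by omega)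
  · rw [Function.update_of_ne hji, Function.update_of_ne hji] at hj
    exact hj

/-- embedding of the smaller cube -/
def lift (l : Fin q → Fin m) : Fin q → Fin (m + 1) := fun i => (l i).castSucc

theorem lift_inj : Function.Injective (lift (q := q) (m := m)) := by
  intro l l' h
  funext i
  have := congrFun h i
  unfold lift at this
  exact Fin.castSucc_injective m this

theorem card_slack (q m : ℕ) : (slack q m 0).card + (slack q m 1).card = m ^ q := by
  have h1 : (slack q m 0) ∪ (slack q m 1) =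
      (Finset.univ : Finset (Fin q → Fin m)).image lift := by
    ext l
    simp only [slack, Finset.mem_union, Finset.mem_filter, Finset.mem_univ, true_and,
      Finset.mem_image]
    constructor
    · intro h
      have h2 : ∀ i, (l i).val < m := by
        rcases h with h | h <;> exact h.1
      exact ⟨fun i => ⟨(l i).val, h2 i⟩, by funext i; rfl⟩
    · rintro ⟨l', rfl⟩
      have h2 : ∀ i, (lift l' i).val < m := fun i => (l' i).isLt
      rcases Nat.mod_two_eq_zero_or_one (∑ i, (lift l' i).val) with h3 | h3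
      · exact Or.inl ⟨h2, h3⟩
      · exact Or.inr ⟨h2, h3⟩
  have h2 : Disjoint (slack q m 0) (slack q m 1) := by
    rw [Finset.disjoint_left]
    intro l h h'
    simp only [slack, Finset.mem_filter, Finset.mem_univ, true_and] at h h'
    omega
  rw [← Finset.card_union_of_disjoint h2, h1, Finset.card_image_of_injective _ lift_inj,
    Finset.card_univ]
  simp

/-- index type of the support -/
abbrev Idx (q m b : ℕ) : Type := (Fin q → Fin (m + 1)) ⊕ {l : Fin q → Fin (m + 1) // l ∈ slack q m b}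

/-- support points -/
noncomputable def pt (c H : ℝ) : Idx q m b → Fin (q + 2) → ℝ
  | Sum.inl l => vec c (2 * c) l
  | Sum.inr l => vec c H l.1

open Classical in
/-- weights -/
noncomputable def wt (c H : ℝ) : Idx q m b → ℝ
  | Sum.inl l => (if l ∈ slack q m b then 1 - 2 * c / H else 1) / ((m + 1 : ℕ) : ℝ) ^ q
  | Sum.inr _ => (2 * c / H) / ((m + 1 : ℕ) : ℝ) ^ q

theorem wt_pos (hc : 1 < c) (hH : 2 * c < H) (a : Idx q m b) : 0 < wt c H a := by
  have hH0 : 0 < H := by linarith
  have h1 : 2 * c / H < 1 := (div_lt_one hH0).2 hH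
  have h2 : 0 < 2 * c / H := by positivity
  have h3 : (0 : ℝ) < ((m + 1 : ℕ) : ℝ) ^ q := by positivity
  rcases a with l | l
  · unfold wt
    refine div_pos ?_ h3
    split_ifs
    · linarith
    · norm_num
  · unfold wt
    exact div_pos h2 h3

theorem sum_idx (f : Idx q m b → ℝ) :
    ∑ a, f a = ∑ l : Fin q → Fin (m + 1), f (Sum.inl l) + ∑ l : {l // l ∈ slack q m b}, f (Sum.inr l) :=
  Fintype.sum_sum_type f

theorem wt_sum (c H : ℝ) : ∑ a : Idx q m b, wt c H a = 1 := by
  classical
  rw [sum_idx]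
  unfold wt
  have h3 : ((m + 1 : ℕ) : ℝ) ^ q ≠ 0 := by positivity
  rw [← Finset.sum_div, ← Finset.sum_div, ← add_div, div_eq_one_iff_eq h3]
  rw [Finset.sum_const, Finset.card_univ, Fintype.card_coe]
  have h4 : ∀ l : Fin q → Fin (m + 1), (if l ∈ slack q m b then 1 - 2 * c / H else (1 : ℝ)) =
      1 - (if l ∈ slack q m b then 2 * c / H else 0) := by
    intro l; split_ifs <;> ring
  rw [Finset.sum_congr rfl fun l _ => h4 l, Finset.sum_sub_distrib, Finset.sum_ite_mem,
    Finset.univ_inter, Finset.sum_const, Finset.sum_const, Finset.card_univ, Fintype.card_fun,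
    Fintype.card_fin, Fintype.card_fin]
  simp

theorem pt_pos (hc : 1 < c) (hH : 2 * c < H) (a : Idx q m b) (i : Fin (q + 2)) : 0 < pt c H a i := by
  rcases a with l | l
  · exact vec_pos (by linarith) hc _ _
  · exact vec_pos (by linarith) hc _ _

/-- The bad distribution. -/
noncomputable def bad (q m b : ℕ) {c H : ℝ} (hc : 1 < c) (hH : 2 * c < H) : Dist (q + 2) :=
  Dist.ofPoints (pt (q := q) (m := m) (b := b) c H) (wt c H) (wt_pos hc hH) (wt_sum c H) (pt_pos hc hH)

theorem mem_bad (hc : 1 < c) (hH : 2 * c < H) (v : Fin (q + 2) → ℝ) :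
    v ∈ (bad q m b hc hH).supp ↔ ∃ a, pt (q := q) (m := m) (b := b) c H a = v :=
  Dist.mem_ofPoints _ _ _ _ _ _

/-- The points of the support have the form `vec c y l` with `2 c ≤ y`. -/
theorem pt_form (hH : 2 * c < H) (a : Idx q m b) :
    ∃ (y : ℝ) (l : Fin q → Fin (m + 1)), 2 * c ≤ y ∧ pt c H a = vec c y l := by
  rcases a with l | l
  · exact ⟨2 * c, l, le_refl _, rfl⟩
  · exact ⟨H, l.1, hH.le, rfl⟩

theorem expect_bad (hc : 1 < c) (hH : 2 * c < H) (f : (Fin (q + 2) → ℝ) → ℝ) :
    (bad q m b hc hH).expect f =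
      (∑ l : Fin q → Fin (m + 1), (if l ∈ slack q m b then
        (1 - 2 * c / H) * f (vec c (2 * c) l) + 2 * c / H * f (vec c H l) else
          f (vec c (2 * c) l))) / ((m + 1 : ℕ) : ℝ) ^ q := by
  classical
  unfold bad
  rw [Dist.expect_ofPoints, sum_idx]
  unfold wt pt
  simp only
  have h1 : ∑ l : {l // l ∈ slack q m b}, 2 * c / H / ((m + 1 : ℕ) : ℝ) ^ q * f (vec c H l.1) =
      ∑ l : Fin q → Fin (m + 1), if l ∈ slack q m b then
        2 * c / H / ((m + 1 : ℕ) : ℝ) ^ q * f (vec c H l) else 0 := by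
    rw [Finset.sum_coe_sort (slack q m b)
      (fun l => 2 * c / H / ((m + 1 : ℕ) : ℝ) ^ q * f (vec c H l)), Finset.sum_ite_mem,
      Finset.univ_inter]
  rw [h1, ← Finset.sum_add_distrib, Finset.sum_div]
  refine Finset.sum_congr rfl fun l _ => ?_
  split_ifs <;> ring

end example_

end Pool.Agent.W993.KLook
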