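import Pool.Agent.W993.KLook.Proof

set_option autoImplicit false

namespace Pool.Agent.W993.KLook

open scoped BigOperators

variable {q m : ℕ} {c H : ℝ} {b : ℕ}

/-- all bidders but the outsider -/
def K0 (q : ℕ) : Finset (Fin (q + 2)) := Finset.univ.erase (Fin.last (q + 1))

theorem mem_K0 {i : Fin (q + 2)} : i ∈ K0 q ↔ i ≠ Fin.last (q + 1) := by
  simp [K0]

theorem card_K0 : (K0 q).card = q + 1 := by
  unfold K0
  rw [Finset.card_erase_of_mem (Finset.mem_univ _), Finset.card_univ, Fintype.card_fin]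
  omega

theorem vec_gt_one {y : ℝ} (hy : 2 * c ≤ y) (hc : 1 < c) (l : Fin q → Fin (m + 1))
    (i : Fin (q + 2)) (hi : i ≠ Fin.last (q + 1)) : 1 < vec c y l i := by
  obtain ⟨i, rfl⟩ := Fin.exists_castSucc_eq.mpr hi
  refine Fin.cases ?_ (fun i => ?_) i
  · rw [vec_zero]; linarith
  · rw [vec_mid]; exact u_gt hc _

theorem top_vec {y : ℝ} (hy : 2 * c ≤ y) (hc : 1 < c) (l : Fin q → Fin (m + 1)) :
    top (q + 1) (vec c y l) = K0 q := by
  ext i
  rw [mem_K0]
  unfold top
  simp only [Finset.mem_filter, Finset.mem_univ, true_and]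
  constructor
  · rintro h rfl
    have h1 : K0 q ⊆ Finset.univ.filter fun j => vec c y l (Fin.last (q + 1)) < vec c y l j ∨
        (vec c y l j = vec c y l (Fin.last (q + 1)) ∧ j < Fin.last (q + 1)) := by
      intro j hj
      rw [mem_K0] at hj
      simp only [Finset.mem_filter, Finset.mem_univ, true_and]
      left
      rw [vec_last]
      exact vec_gt_one hy hc l j hj
    have h2 := Finset.card_le_card h1
    rw [card_K0] at h2
    omega
  · intro hi
    have h1 : (Finset.univ.filter fun j => vec c y l i < vec c y l j ∨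
        (vec c y l j = vec c y l i ∧ j < i)) ⊆ (K0 q).erase i := by
      intro j hj
      simp only [Finset.mem_filter, Finset.mem_univ, true_and] at hj
      rw [Finset.mem_erase, mem_K0]
      constructor
      · rintro rfl
        rcases hj with hj | hj
        · exact lt_irrefl _ hj
        · exact lt_irrefl _ hj.2
      · rintro rfl
        have h3 := vec_gt_one hy hc l i hi
        rw [vec_last] at hj
        rcases hj with hj | hj
        · linarith
        · linarith [hj.1]
    have h2 := Finset.card_le_card h1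
    rw [Finset.card_erase_of_mem (mem_K0.2 hi), card_K0] at h2
    omega

/-- the inner bidders -/
def e (i : Fin (q + 1)) : {i // i ∈ K0 q} := ⟨Fin.castSucc i, mem_K0.2 (Fin.castSucc_ne_last i)⟩

theorem e_bij : Function.Bijective (e (q := q)) := by
  constructor
  · intro i j h
    have := congrArg Subtype.val h
    exact Fin.castSucc_injective _ this
  · rintro ⟨i, hi⟩
    obtain ⟨i', rfl⟩ := Fin.exists_castSucc_eq.mpr (mem_K0.1 hi)
    exact ⟨i', rfl⟩

theorem sum_K0 (f : {i // i ∈ K0 q} → ℝ) : ∑ i, f i = f (e 0) + ∑ i : Fin q, f (e i.succ) := by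
  rw [← e_bij.sum_comp f, Fin.sum_univ_succ]

/-- restriction of the valuation vector to the inner bidders -/
noncomputable def z (c y : ℝ) (l : Fin q → Fin (m + 1)) : {i // i ∈ K0 q} → ℝ := fun j => vec c y l j

theorem z_zero (y : ℝ) (l : Fin q → Fin (m + 1)) : z c y l (e 0) = y := vec_zero y l

theorem z_succ (y : ℝ) (l : Fin q → Fin (m + 1)) (i : Fin q) : z c y l (e i.succ) = u m c (l i) :=
  vec_mid y l i

theorem z_pos {y : ℝ} (hy : 0 < y) (hc : 1 < c) (l : Fin q → Fin (m + 1)) (j) : 0 < z c y l j :=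
  vec_pos hy hc l _

theorem update_zero (y y' : ℝ) (l : Fin q → Fin (m + 1)) :
    Function.update (z c y l) (e 0) y' = z c y' l := by
  funext j
  obtain ⟨j, rfl⟩ := e_bij.2 j
  refine Fin.cases ?_ (fun i => ?_) j
  · rw [Function.update_self, z_zero]
  · rw [Function.update_of_ne, z_succ, z_succ]
    intro h
    exact absurd (e_bij.1 h) (Fin.succ_ne_zero i)

theorem update_succ (y : ℝ) (l : Fin q → Fin (m + 1)) (i : Fin q) :
    Function.update (z c y l) (e i.succ) (u m c (up l i i)) = z c y (up l i) := by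
  funext j
  obtain ⟨j, rfl⟩ := e_bij.2 j
  by_cases hj : j = i.succ
  · subst hj
    rw [Function.update_self, z_succ]
  · rw [Function.update_of_ne (fun h => hj (e_bij.1 h))]
    revert hj
    refine Fin.cases ?_ (fun i' => ?_) j
    · intro _
      rw [z_zero, z_zero]
    · intro hj
      rw [z_succ, z_succ]
      unfold up
      rw [Function.update_of_ne (fun h => hj (by rw [h]))]

section mech

variable {M : Mechanism {i // i ∈ K0 q}}

/-- total allocation probability of the small bidders -/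
noncomputable def X (M : Mechanism {i // i ∈ K0 q}) (c y : ℝ) (l : Fin q → Fin (m + 1)) : ℝ :=
  ∑ i : Fin q, M.x (z c y l) (e i.succ)

theorem X_nonneg (hM : M.Valid) {y : ℝ} (hy : 0 < y) (hc : 1 < c) (l : Fin q → Fin (m + 1)) :
    0 ≤ X M c y l :=
  Finset.sum_nonneg fun _ _ => hM.nonneg _ (z_pos hy hc l) _

theorem x_add_X (hM : M.Valid) {y : ℝ} (hy : 0 < y) (hc : 1 < c) (l : Fin q → Fin (m + 1)) :
    M.x (z c y l) (e 0) + X M c y l ≤ 1 := by
  have := hM.sum_le _ (z_pos hy hc l)
  rw [sum_K0] at this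
  exact this

theorem pay_le (hM : M.Valid) {y : ℝ} (hy : 0 < y) (hc : 1 < c) (l : Fin q → Fin (m + 1)) :
    ∑ i, M.p (z c y l) i ≤ M.p (z c y l) (e 0) + c * X M c y l := by
  rw [sum_K0]
  unfold X
  rw [Finset.mul_sum]
  refine add_le_add (le_refl _) (Finset.sum_le_sum fun i _ => ?_)
  refine le_trans (hM.p_le _ (z_pos hy hc l) _) ?_
  rw [z_succ]
  have h1 := hM.nonneg _ (z_pos hy hc l) (e i.succ)
  have h2 := u_le hc (l i)
  nlinarith

theorem block_le (hM : M.Valid) (hc : 1 < c) (l : Fin q → Fin (m + 1)) :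
    ∑ i, M.p (z c (2 * c) l) i ≤ 2 * c - c * X M c (2 * c) l := by
  have hy : 0 < 2 * c := by linarith
  have h1 := pay_le hM hy hc l
  have h2 := hM.p_le _ (z_pos hy hc l) (e 0)
  rw [z_zero] at h2
  have h3 := x_add_X hM hy hc l
  nlinarith

theorem slack_le (hM : M.Valid) (hc : 1 < c) (hH : 2 * c < H) (l : Fin q → Fin (m + 1)) :
    (1 - 2 * c / H) * ∑ i, M.p (z c (2 * c) l) i + 2 * c / H * ∑ i, M.p (z c H l) i ≤
      2 * c + c * X M c (2 * c) l := by
  have hy : 0 < 2 * c := by linarith
  have hH0 : 0 < H := by linarith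
  have h1 := pay_le hM hy hc l
  have h2 := pay_le hM hH0 hc l
  have h3 := hM.p_le _ (z_pos hy hc l) (e 0)
  rw [z_zero] at h3
  have h4 := x_add_X hM hH0 hc l
  have h5 := hM.truthful _ (z_pos hH0 hc l) (e 0) (2 * c) hy
  rw [update_zero, z_zero] at h5
  have h6 := X_nonneg hM hy hc l
  have h7 := X_nonneg hM hH0 hc l
  set θ : ℝ := 2 * c / H with hθ
  have hθ0 : 0 < θ := by positivity
  have hθ1 : θ < 1 := (div_lt_one hH0).2 hH
  have hθH : θ * H = 2 * c := by rw [hθ]; field_simp
  set x0 := M.x (z c (2 * c) l) (e 0) with hx0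
  set x1 := M.x (z c H l) (e 0) with hx1
  set p0 := M.p (z c (2 * c) l) (e 0) with hp0
  set p1 := M.p (z c H l) (e 0) with hp1
  set X0 := X M c (2 * c) l with hX0
  set X1 := X M c H l with hX1
  have h8 : (1 - θ) * ∑ i, M.p (z c (2 * c) l) i ≤ (1 - θ) * (p0 + c * X0) :=
    mul_le_mul_of_nonneg_left h1 (by linarith)
  have h9 : θ * ∑ i, M.p (z c H l) i ≤ θ * (p1 + c * X1) :=
    mul_le_mul_of_nonneg_left h2 hθ0.le
  have h10 : θ * p1 ≤ θ * (p0 + H * (x1 - x0)) := mul_le_mul_of_nonneg_left (by linarith) hθ0.le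
  have h11 : θ * (H * (x1 - x0)) = 2 * c * (x1 - x0) := by rw [← mul_assoc, hθH]
  have h12 : θ * (c * X1) ≤ 1 * (c * X1) :=
    mul_le_mul_of_nonneg_right hθ1.le (by nlinarith)
  have h13 : c * X1 ≤ 2 * c * (1 - x1) := by nlinarith
  have h14 : (1 - θ) * (c * X0) ≤ 1 * (c * X0) :=
    mul_le_mul_of_nonneg_right (by linarith) (by nlinarith)
  nlinarith

theorem X_mono (hM : M.Valid) (hc : 1 < c) :
    ∑ l ∈ slack q m b, X M c (2 * c) l ≤ ∑ l ∈ (slack q m b)ᶜ, X M c (2 * c) l := by
  have hy : 0 < 2 * c := by linarith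
  unfold X
  rw [Finset.sum_comm, Finset.sum_comm (s := (slack q m b)ᶜ)]
  refine Finset.sum_le_sum fun i _ => ?_
  have h1 : ∀ l ∈ slack q m b, M.x (z c (2 * c) l) (e i.succ) ≤
      M.x (z c (2 * c) (up l i)) (e i.succ) := by
    intro l hl
    have h2 := hM.mono (z c (2 * c) l) (z_pos hy hc l) (e i.succ) (u m c (up l i i)) (by
      rw [z_succ]
      refine u_lt hc ?_
      unfold up
      rw [Function.update_self, dif_pos]
      · exact Nat.lt_succ_self _
      · simp only [slack, Finset.mem_filter, Finset.mem_univ, true_and] at hl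
        exact hl.1 i)
    rw [update_succ] at h2
    exact h2
  refine le_trans (Finset.sum_le_sum h1) ?_
  rw [← Finset.sum_image (f := fun l => M.x (z c (2 * c) l) (e i.succ))
    (g := fun l => up l i) (fun l hl l' hl' h => up_inj hl hl' i h)]
  refine Finset.sum_le_sum_of_subset_of_nonneg ?_ fun l _ _ => hM.nonneg _ (z_pos hy hc l) _
  intro l hl
  obtain ⟨l', hl', rfl⟩ := Finset.mem_image.mp hl
  rw [Finset.mem_compl]
  exact up_not_slack hl' i

/-- No truthful mechanism for the inner bidders earns more than `2 c`. -/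
theorem inner_le (hM : M.Valid) (hc : 1 < c) (hH : 2 * c < H) :
    (bad q m b hc hH).expect (fun v => ∑ i, M.p (fun j => v j) i) ≤ 2 * c := by
  classical
  rw [expect_bad]
  have hN : (0 : ℝ) < ((m + 1 : ℕ) : ℝ) ^ q := by positivity
  rw [div_le_iff₀ hN]
  have h1 : ∀ l : Fin q → Fin (m + 1), (if l ∈ slack q m b then
      (1 - 2 * c / H) * (∑ i, M.p (fun j => vec c (2 * c) l j) i) +
        2 * c / H * (∑ i, M.p (fun j => vec c H l j) i) else
      (∑ i, M.p (fun j => vec c (2 * c) l j) i)) ≤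
      2 * c + c * ((if l ∈ slack q m b then X M c (2 * c) l else 0) -
        (if l ∈ (slack q m b)ᶜ then X M c (2 * c) l else 0)) := by
    intro l
    by_cases hl : l ∈ slack q m b
    · have hl' : l ∉ (slack q m b)ᶜ := by rw [Finset.mem_compl]; exact fun h => h hl
      rw [if_pos hl, if_pos hl, if_neg hl', sub_zero]
      exact slack_le hM hc hH l
    · have hl' : l ∈ (slack q m b)ᶜ := by rw [Finset.mem_compl]; exact hl
      rw [if_neg hl, if_neg hl, if_pos hl']
      have := block_le hM hc l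
      unfold z at this
      linarith
  refine le_trans (Finset.sum_le_sum fun l _ => h1 l) ?_
  rw [Finset.sum_add_distrib, Finset.sum_const, ← Finset.mul_sum, Finset.sum_sub_distrib,
    Finset.sum_ite_mem, Finset.univ_inter, Finset.sum_ite_mem, Finset.univ_inter, Finset.card_univ,
    Fintype.card_fun, Fintype.card_fin, Fintype.card_fin, nsmul_eq_mul]
  have h2 := X_mono (b := b) (m := m) hM hc
  push_cast
  have h3 : c * (∑ l ∈ slack q m b, X M c (2 * c) l - ∑ l ∈ (slack q m b)ᶜ, X M c (2 * c) l) ≤ 0 :=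
    mul_nonpos_of_nonneg_of_nonpos (by linarith) (by linarith)
  linarith

end mech

end Pool.Agent.W993.KLook
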